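import Pool.Agent.Helper37.RT.Defs

/-!
Row T10: the block lemma (limit of the stages), with the stage theorem (row T9) as a hypothesis.
-/

namespace Pool.Agent.Helper37.RT

open MeasureTheory Set Filter Topology
open scoped ENNReal

theorem t10_ff_meas {E : Set (ℝ × ℝ)} (hE : MeasurableSet E) (r : ℝ) (x : ℝ × ℝ) :
    Measurable (ff E r x) := by
  have h1 : Measurable fun y : ℝ × ℝ => r⁻¹ • (y - x) := by fun_prop
  exact (measurable_const.indicator hE).comp h1

theorem t10_ff_nonneg (E : Set (ℝ × ℝ)) (r : ℝ) (x y : ℝ × ℝ) : 0 ≤ ff E r x y := by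
  unfold ff
  exact indicator_nonneg (fun _ _ => zero_le_one) _

theorem t10_ff_le_one (E : Set (ℝ × ℝ)) (r : ℝ) (x y : ℝ × ℝ) : ff E r x y ≤ 1 := by
  unfold ff
  exact indicator_le_self' (fun _ _ => zero_le_one) _

theorem t10_adm_cont {Λ : ℝ} {g : ℝ × ℝ → ℝ} (h : Adm Λ g) : Continuous g := by
  have : LipschitzWith (Real.toNNReal Λ) g := LipschitzWith.of_dist_le' (fun a b => by
    rw [Real.dist_eq]; exact h.lip a b)
  exact this.continuous

theorem t10_BB_meas : MeasurableSet BB := measurableSet_Ico.prod measurableSet_Ico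

theorem t10_BB_vol : volume BB = 1 := by
  rw [BB, Measure.volume_eq_prod, Measure.prod_prod, Real.volume_Ico]
  norm_num

theorem t10_int {F : ℝ × ℝ → ℝ} (hF : Measurable F) {M : ℝ} (hM : ∀ y, |F y| ≤ M) :
    IntegrableOn F BB volume := by
  have hfin : volume BB < ⊤ := by rw [t10_BB_vol]; exact ENNReal.one_lt_top
  exact Measure.integrableOn_of_bounded hfin.ne hF.aestronglyMeasurable
    (Eventually.of_forall fun y => by rw [Real.norm_eq_abs]; exact hM y)

/-- `L¹` bound from the `L²` bound on the unit block -/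
theorem t10_l1 {F : ℝ × ℝ → ℝ} (hF : Measurable F) (hM : ∀ y, |F y| ≤ 1) {c : ℝ} (hc : 0 < c)
    (h2 : ∫ y in BB, F y ^ 2 ≤ 3 / 2 * c ^ 2) : ∫ y in BB, |F y| ≤ 2 * c := by
  have hi1 : IntegrableOn (fun y => |F y|) BB volume :=
    t10_int (M := 1) (by fun_prop) (fun y => by rw [abs_abs]; exact hM y)
  have hi2 : IntegrableOn (fun y => F y ^ 2) BB volume :=
    t10_int (M := 1) (by fun_prop) (fun y => by
      rw [abs_pow]; exact pow_le_one₀ (abs_nonneg _) (hM y))
  have hic : IntegrableOn (fun _ : ℝ × ℝ => c / 2) BB volume :=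
    t10_int (M := |c / 2|) measurable_const (fun y => le_refl _)
  have hpt : ∀ y, |F y| ≤ 1 / (2 * c) * F y ^ 2 + c / 2 := by
    intro y
    have h0 : 0 ≤ (|F y| - c) ^ 2 := sq_nonneg _
    have h1 : F y ^ 2 = |F y| ^ 2 := (sq_abs _).symm
    rw [h1]
    have : 1 / (2 * c) * |F y| ^ 2 + c / 2 - |F y| = (|F y| - c) ^ 2 / (2 * c) := by
      field_simp
      ring
    have h3 : 0 ≤ (|F y| - c) ^ 2 / (2 * c) := by positivity
    linarith
  have hmono : ∫ y in BB, |F y| ≤ ∫ y in BB, (1 / (2 * c) * F y ^ 2 + c / 2) :=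
    integral_mono hi1 ((hi2.const_mul _).add hic) hpt
  have hcalc : ∫ y in BB, (1 / (2 * c) * F y ^ 2 + c / 2)
      = 1 / (2 * c) * (∫ y in BB, F y ^ 2) + c / 2 := by
    rw [integral_add (hi2.const_mul _) hic, integral_const_mul, setIntegral_const,
      Measure.real, t10_BB_vol]
    simp
  have h4 : 1 / (2 * c) * (∫ y in BB, F y ^ 2) ≤ 1 / (2 * c) * (3 / 2 * c ^ 2) :=
    mul_le_mul_of_nonneg_left h2 (by positivity)
  have h5 : 1 / (2 * c) * (3 / 2 * c ^ 2) = 3 / 4 * c := by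
    field_simp
    ring
  rw [hcalc] at hmono
  linarith

/-- the limit argument: densities with summable differences and vanishing defect -/
theorem t10_limit {G : ℕ → ℝ × ℝ → ℝ} (hm : ∀ s, Measurable (G s)) (h0 : ∀ s y, 0 ≤ G s y)
    (h1 : ∀ s y, G s y ≤ 1) (hq : ∀ s, qq (G (s + 1)) ≤ 1 / 2 * (1 / 4) ^ (s + 1))
    (hd : ∀ s, ∫ y in BB, (G (s + 1) y - G s y) ^ 2 ≤ 2 * qq (G s) + 1 / 2 * (1 / 4) ^ (s + 1)) :
    ∃ T : Set (ℝ × ℝ), MeasurableSet T ∧ T ⊆ BB ∧
      ∀ᵐ y ∂(volume.restrict BB), Tendsto (fun s => G s y) atTop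
        (𝓝 (T.indicator (fun _ => (1 : ℝ)) y)) := by
  -- differences
  set U : ℕ → ℝ × ℝ → ℝ := fun s y => G (s + 1) y - G s y with hU
  have hUm : ∀ s, Measurable (U s) := fun s => (hm (s + 1)).sub (hm s)
  have hU1 : ∀ s y, |U s y| ≤ 1 := by
    intro s y
    rw [abs_le]
    have := h0 s y; have := h1 s y; have := h0 (s + 1) y; have := h1 (s + 1) y
    constructor <;> simp only [hU] <;> linarith
  have hL1 : ∀ s, ∫ y in BB, |U (s + 1) y| ≤ 2 * (1 / 2) ^ (s + 1) := by
    intro s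
    refine t10_l1 (hUm (s + 1)) (hU1 (s + 1)) (by positivity) ?_
    have h3 := hd (s + 1)
    have h4 := hq s
    have h5 : ((1 / 2 : ℝ) ^ (s + 1)) ^ 2 = (1 / 4) ^ (s + 1) := by
      rw [← pow_mul, mul_comm, pow_mul]; norm_num
    have h6 : (1 / 4 : ℝ) ^ (s + 1 + 1) = (1 / 4) ^ (s + 1) * (1 / 4) := pow_succ _ _
    have h7 : (0 : ℝ) < (1 / 4) ^ (s + 1) := by positivity
    rw [h5]
    simp only [hU] at *
    rw [h6] at h3
    linarith
  have hUint : ∀ s, IntegrableOn (fun y => |U s y|) BB volume := fun s =>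
    t10_int (M := 1) ((hUm s).abs) (fun y => by rw [abs_abs]; exact hU1 s y)
  -- almost everywhere summability
  have hsum : ∀ᵐ y ∂(volume.restrict BB), Summable (fun s => |U s y|) := by
    have hlin : ∀ s, ∫⁻ y in BB, ENNReal.ofReal |U (s + 1) y| ≤ ENNReal.ofReal (2 * (1 / 2) ^ (s + 1)) := by
      intro s
      rw [← ofReal_integral_eq_lintegral_ofReal (hUint (s + 1))
        (Eventually.of_forall fun y => abs_nonneg _)]
      exact ENNReal.ofReal_le_ofReal (hL1 s)
    have hfin : ∫⁻ y in BB, ∑' s, ENNReal.ofReal |U (s + 1) y| ≠ ⊤ := by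
      rw [lintegral_tsum (fun s => ((hUm (s + 1)).abs.ennreal_ofReal).aemeasurable)]
      have hle : ∑' s, ∫⁻ y in BB, ENNReal.ofReal |U (s + 1) y|
          ≤ ∑' s : ℕ, ENNReal.ofReal (2 * (1 / 2) ^ (s + 1)) := ENNReal.tsum_le_tsum hlin
      have hsm : Summable (fun s : ℕ => (2 : ℝ) * (1 / 2) ^ (s + 1)) := by
        have := (summable_geometric_of_lt_one (by norm_num : (0 : ℝ) ≤ 1 / 2) (by norm_num))
        have h2 : (fun s : ℕ => (2 : ℝ) * (1 / 2) ^ (s + 1)) = fun s => (1 / 2 : ℝ) ^ s := by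
          funext s; rw [pow_succ]; ring
        rw [h2]; exact this
      have : ∑' s : ℕ, ENNReal.ofReal (2 * (1 / 2) ^ (s + 1)) ≠ ⊤ := by
        rw [← ENNReal.ofReal_tsum_of_nonneg (fun s => by positivity) hsm]
        exact ENNReal.ofReal_ne_top
      exact ne_top_of_le_ne_top this hle
    have hae := ae_lt_top (Measurable.tsum fun s => (hUm (s + 1)).abs.ennreal_ofReal) hfin
    filter_upwards [hae] with y hy
    have h2 : Summable (fun s => |U (s + 1) y|) := by
      have h3 := ENNReal.summable_toReal hy.ne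
      have h4 : (fun s => (ENNReal.ofReal |U (s + 1) y|).toReal) = fun s => |U (s + 1) y| := by
        funext s; exact ENNReal.toReal_ofReal (abs_nonneg _)
      rw [h4] at h3
      exact h3
    exact (summable_nat_add_iff 1).1 h2
  have hlim : ∀ᵐ y ∂(volume.restrict BB), ∃ l : ℝ, Tendsto (fun s => G s y) atTop (𝓝 l) := by
    filter_upwards [hsum] with y hy
    have hc : CauchySeq (fun s => G s y) := by
      refine cauchySeq_of_summable_dist ?_
      have h2 : (fun s => dist (G s y) (G (s + 1) y)) = fun s => |U s y| := by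
        funext s
        rw [Real.dist_eq, abs_sub_comm]
      simp only [Nat.succ_eq_add_one]
      rw [h2]
      exact hy
    exact cauchySeq_tendsto_of_complete hc
  -- the limit function
  classical
  set g : ℝ × ℝ → ℝ := fun y => if h : ∃ l : ℝ, Tendsto (fun s => G s y) atTop (𝓝 l) then h.choose else 0
    with hg
  have hgt : ∀ᵐ y ∂(volume.restrict BB), Tendsto (fun s => G s y) atTop (𝓝 (g y)) := by
    filter_upwards [hlim] with y hy
    have : g y = hy.choose := by simp only [hg]; rw [dif_pos hy]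
    rw [this]
    exact hy.choose_spec
  -- the defect of the limit
  have hqlim : Tendsto (fun s => qq (G s)) atTop (𝓝 (∫ y in BB, g y * (1 - g y))) := by
    have hF : ∀ s, AEStronglyMeasurable (fun y => G s y * (1 - G s y)) (volume.restrict BB) :=
      fun s => ((hm s).mul (measurable_const.sub (hm s))).aestronglyMeasurable
    refine tendsto_integral_of_dominated_convergence (fun _ => (1 : ℝ)) hF ?_ ?_ ?_
    · exact t10_int (M := 1) measurable_const (fun y => by simp)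
    · intro s
      refine Eventually.of_forall fun y => ?_
      rw [Real.norm_eq_abs, abs_mul]
      have a1 := h0 s y; have a2 := h1 s y
      have b1 : |G s y| ≤ 1 := by rw [abs_of_nonneg a1]; exact a2
      have b2 : |1 - G s y| ≤ 1 := by rw [abs_of_nonneg (by linarith)]; linarith
      calc |G s y| * |1 - G s y| ≤ 1 * 1 := mul_le_mul b1 b2 (abs_nonneg _) zero_le_one
        _ = 1 := one_mul 1
    · filter_upwards [hgt] with y hy
      exact hy.mul (tendsto_const_nhds.sub hy)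
  have hq0 : Tendsto (fun s => qq (G s)) atTop (𝓝 0) := by
    have hnn : ∀ s, 0 ≤ qq (G s) := fun s => by
      unfold qq
      exact integral_nonneg fun y => mul_nonneg (h0 s y) (sub_nonneg.2 (h1 s y))
    have hup : Tendsto (fun s : ℕ => (1 / 2 : ℝ) * (1 / 4) ^ s) atTop (𝓝 0) := by
      have := (tendsto_pow_atTop_nhds_zero_of_lt_one (by norm_num : (0 : ℝ) ≤ 1 / 4) (by norm_num)).const_mul (1 / 2)
      simpa using this
    refine squeeze_zero' (Eventually.of_forall hnn) ?_ hup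
    filter_upwards [eventually_ge_atTop 1] with s hs
    obtain ⟨t, rfl⟩ : ∃ t, s = t + 1 := ⟨s - 1, by omega⟩
    exact hq t
  have hgz : ∫ y in BB, g y * (1 - g y) = 0 := tendsto_nhds_unique hqlim hq0
  have hg01 : ∀ᵐ y ∂(volume.restrict BB), 0 ≤ g y ∧ g y ≤ 1 := by
    filter_upwards [hgt] with y hy
    exact ⟨ge_of_tendsto' hy (fun s => h0 s y), le_of_tendsto' hy (fun s => h1 s y)⟩
  have hgm : AEMeasurable g (volume.restrict BB) :=
    aemeasurable_of_tendsto_metrizable_ae atTop (fun s => (hm s).aemeasurable) hgt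
  have hgi : Integrable (fun y => g y * (1 - g y)) (volume.restrict BB) := by
    have hfin : IsFiniteMeasure (volume.restrict BB) :=
      ⟨by rw [Measure.restrict_apply_univ, t10_BB_vol]; exact ENNReal.one_lt_top⟩
    refine Integrable.of_bound (hgm.mul (aemeasurable_const.sub hgm)).aestronglyMeasurable 1 ?_
    filter_upwards [hg01] with y hy
    rw [Real.norm_eq_abs, abs_mul, abs_of_nonneg hy.1, abs_of_nonneg (by linarith [hy.2])]
    nlinarith [hy.1, hy.2]
  have hgae : ∀ᵐ y ∂(volume.restrict BB), g y * (1 - g y) = 0 := by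
    have hnn : 0 ≤ᵐ[volume.restrict BB] fun y => g y * (1 - g y) := by
      filter_upwards [hg01] with y hy
      exact mul_nonneg hy.1 (by linarith [hy.2])
    exact (integral_eq_zero_iff_of_nonneg_ae hnn hgi).1 hgz
  -- the set
  refine ⟨BB ∩ ⋃ N : ℕ, ⋂ s : ℕ, ⋂ _ : N ≤ s, {y | 1 / 2 < G s y}, ?_, inter_subset_left, ?_⟩
  · refine t10_BB_meas.inter (MeasurableSet.iUnion fun N => MeasurableSet.iInter fun s =>
      MeasurableSet.iInter fun _ => measurableSet_lt measurable_const (hm s))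
  · have hBB : ∀ᵐ y ∂(volume.restrict BB), y ∈ BB := ae_restrict_mem t10_BB_meas
    filter_upwards [hgt, hgae, hBB] with y hy hz hyB
    rcases mul_eq_zero.1 hz with hz | hz
    · -- limit zero
      rw [hz] at hy
      have hnot : y ∉ BB ∩ ⋃ N : ℕ, ⋂ s : ℕ, ⋂ _ : N ≤ s, {y | 1 / 2 < G s y} := by
        rintro ⟨-, h⟩
        simp only [mem_iUnion, mem_iInter, mem_ofPred_eq] at h
        obtain ⟨N, hN⟩ := h
        have hev : ∀ᶠ s in atTop, G s y < 1 / 2 :=
          hy.eventually_lt_const (by norm_num)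
        obtain ⟨s, hs1, hs2⟩ := (hev.and (eventually_ge_atTop N)).exists
        exact absurd (hN s hs2) (not_lt.2 hs1.le)
      rw [indicator_of_notMem hnot]
      exact hy
    · have hz1 : g y = 1 := by linarith
      rw [hz1] at hy
      have hmem : y ∈ BB ∩ ⋃ N : ℕ, ⋂ s : ℕ, ⋂ _ : N ≤ s, {y | 1 / 2 < G s y} := by
        refine ⟨hyB, ?_⟩
        simp only [mem_iUnion, mem_iInter, mem_ofPred_eq]
        have hev : ∀ᶠ s in atTop, 1 / 2 < G s y :=
          hy.eventually_const_lt (by norm_num)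
        obtain ⟨N, hN⟩ := eventually_atTop.1 hev
        exact ⟨N, fun s hs => hN s hs⟩
      rw [indicator_of_mem hmem]
      exact hy

/-- the block lemma, from the stage theorem -/
theorem block_of {E : Set (ℝ × ℝ)} (hE : MeasurableSet E)
    (hstage : ∀ (g₀ : ℝ × ℝ → ℝ) (Λ : ℝ), Adm Λ g₀ → ∀ δ ε : ℝ, 0 < δ → δ ≤ 1 / 2 → 0 < ε →
      ∃ (g₁ : ℝ × ℝ → ℝ) (Λ' : ℝ), Adm Λ' g₁ ∧ (∀ y, y ∉ BB → g₁ y = g₀ y) ∧ qq g₁ ≤ δ ∧
      (∫ y in BB, (g₁ y - g₀ y) ^ 2) ≤ 2 * qq g₀ + δ ∧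
      ∀ r : ℝ, 1 ≤ r → ∀ x x' : ℝ × ℝ,
        |(∫ y, (g₁ y - g₀ y) * ff E r x y) - ∫ y, (g₁ y - g₀ y) * ff E r x' y|
          ≤ ε * r ^ (7 / 8 : ℝ) * dist x x')
    {h : ℝ × ℝ → ℝ} {Λ : ℝ} (hh : Adm Λ h) {ε : ℝ} (hε : 0 < ε) :
    ∃ T : Set (ℝ × ℝ), MeasurableSet T ∧ T ⊆ BB ∧ ∀ r : ℝ, 1 ≤ r → ∀ x x' : ℝ × ℝ,
      |(∫ y in BB, (T.indicator (fun _ => (1 : ℝ)) y - h y) * ff E r x y)
          - ∫ y in BB, (T.indicator (fun _ => (1 : ℝ)) y - h y) * ff E r x' y|
        ≤ ε * r ^ (7 / 8 : ℝ) * dist x x' := by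
  classical
  -- the next density
  have hnext : ∀ (s : ℕ) (g : {g : ℝ × ℝ → ℝ // ∃ Λ : ℝ, Adm Λ g}),
      ∃ g' : {g : ℝ × ℝ → ℝ // ∃ Λ : ℝ, Adm Λ g},
        (∀ y, y ∉ BB → g'.1 y = g.1 y) ∧ qq g'.1 ≤ 1 / 2 * (1 / 4) ^ (s + 1) ∧
        (∫ y in BB, (g'.1 y - g.1 y) ^ 2) ≤ 2 * qq g.1 + 1 / 2 * (1 / 4) ^ (s + 1) ∧
        ∀ r : ℝ, 1 ≤ r → ∀ x x' : ℝ × ℝ,
          |(∫ y, (g'.1 y - g.1 y) * ff E r x y) - ∫ y, (g'.1 y - g.1 y) * ff E r x' y|
            ≤ (ε * (1 / 2) ^ (s + 1)) * r ^ (7 / 8 : ℝ) * dist x x' := by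
    rintro s ⟨g, Λg, hgA⟩
    have hδ1 : (0 : ℝ) < 1 / 2 * (1 / 4) ^ (s + 1) := by positivity
    have hδ2 : (1 / 2 : ℝ) * (1 / 4) ^ (s + 1) ≤ 1 / 2 := by
      have : ((1 : ℝ) / 4) ^ (s + 1) ≤ 1 := pow_le_one₀ (by norm_num) (by norm_num)
      linarith
    obtain ⟨g₁, Λ', hA, h1, h2, h3, h4⟩ := hstage g Λg hgA _ (ε * (1 / 2) ^ (s + 1)) hδ1 hδ2
      (by positivity)
    exact ⟨⟨g₁, Λ', hA⟩, h1, h2, h3, h4⟩
  choose nx hnx using hnext
  let GG : ℕ → {g : ℝ × ℝ → ℝ // ∃ Λ : ℝ, Adm Λ g} := fun s => Nat.rec ⟨h, Λ, hh⟩ (fun s g => nx s g) s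
  have hGG0 : (GG 0).1 = h := rfl
  have hGGs : ∀ s, GG (s + 1) = nx s (GG s) := fun s => rfl
  set G : ℕ → ℝ × ℝ → ℝ := fun s => (GG s).1 with hG
  have hm : ∀ s, Measurable (G s) := fun s => by
    obtain ⟨Λs, hs⟩ := (GG s).2
    exact (t10_adm_cont hs).measurable
  have h0 : ∀ s y, 0 ≤ G s y := fun s y => by
    obtain ⟨Λs, hs⟩ := (GG s).2
    exact hs.nonneg y
  have h1 : ∀ s y, G s y ≤ 1 := fun s y => by
    obtain ⟨Λs, hs⟩ := (GG s).2
    exact hs.le_one y
  have hoff : ∀ s y, y ∉ BB → G (s + 1) y = G s y := fun s y hy => by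
    simp only [hG, hGGs]
    exact (hnx s (GG s)).1 y hy
  have hq : ∀ s, qq (G (s + 1)) ≤ 1 / 2 * (1 / 4) ^ (s + 1) := fun s => by
    simp only [hG, hGGs]
    exact (hnx s (GG s)).2.1
  have hd : ∀ s, ∫ y in BB, (G (s + 1) y - G s y) ^ 2 ≤ 2 * qq (G s) + 1 / 2 * (1 / 4) ^ (s + 1) :=
    fun s => by
      simp only [hG, hGGs]
      exact (hnx s (GG s)).2.2.1
  have hst : ∀ s, ∀ r : ℝ, 1 ≤ r → ∀ x x' : ℝ × ℝ,
      |(∫ y, (G (s + 1) y - G s y) * ff E r x y) - ∫ y, (G (s + 1) y - G s y) * ff E r x' y|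
        ≤ (ε * (1 / 2) ^ (s + 1)) * r ^ (7 / 8 : ℝ) * dist x x' := fun s => by
      simp only [hG, hGGs]
      exact (hnx s (GG s)).2.2.2
  obtain ⟨T, hT, hTB, hlim⟩ := t10_limit hm h0 h1 hq hd
  refine ⟨T, hT, hTB, fun r hr x x' => ?_⟩
  -- integrals of the partial densities
  have hI : ∀ s z, IntegrableOn (fun y => (G s y - h y) * ff E r z y) BB volume := by
    intro s z
    have hhm : Measurable h := hm 0
    refine t10_int (M := 1) (((hm s).sub hhm).mul (t10_ff_meas hE r z)) (fun y => ?_)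
    rw [abs_mul]
    have a1 := h0 s y; have a2 := h1 s y
    have a3 : 0 ≤ h y := h0 0 y
    have a4 : h y ≤ 1 := h1 0 y
    have b1 : |G s y - h y| ≤ 1 := by rw [abs_le]; constructor <;> linarith
    have b2 : |ff E r z y| ≤ 1 := by
      rw [abs_of_nonneg (t10_ff_nonneg E r z y)]; exact t10_ff_le_one E r z y
    calc |G s y - h y| * |ff E r z y| ≤ 1 * 1 := mul_le_mul b1 b2 (abs_nonneg _) zero_le_one
      _ = 1 := one_mul 1
  have hJ : ∀ s z, IntegrableOn (fun y => (G (s + 1) y - G s y) * ff E r z y) BB volume := by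
    intro s z
    refine t10_int (M := 1) (((hm (s + 1)).sub (hm s)).mul (t10_ff_meas hE r z)) (fun y => ?_)
    rw [abs_mul]
    have a1 := h0 s y; have a2 := h1 s y
    have a3 := h0 (s + 1) y; have a4 := h1 (s + 1) y
    have b1 : |G (s + 1) y - G s y| ≤ 1 := by rw [abs_le]; constructor <;> linarith
    have b2 : |ff E r z y| ≤ 1 := by
      rw [abs_of_nonneg (t10_ff_nonneg E r z y)]; exact t10_ff_le_one E r z y
    calc |G (s + 1) y - G s y| * |ff E r z y| ≤ 1 * 1 := mul_le_mul b1 b2 (abs_nonneg _) zero_le_one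
      _ = 1 := one_mul 1
  have hstep : ∀ s z, ∫ y in BB, (G (s + 1) y - h y) * ff E r z y
      = (∫ y in BB, (G s y - h y) * ff E r z y) + ∫ y, (G (s + 1) y - G s y) * ff E r z y := by
    intro s z
    have e1 : ∫ y, (G (s + 1) y - G s y) * ff E r z y
        = ∫ y in BB, (G (s + 1) y - G s y) * ff E r z y := by
      rw [setIntegral_eq_integral_of_forall_compl_eq_zero]
      intro y hy
      rw [hoff s y hy, sub_self, zero_mul]
    rw [e1, ← integral_add (hI s z) (hJ s z)]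
    refine integral_congr_ae (Eventually.of_forall fun y => ?_)
    simp only
    ring
  have hR : (0 : ℝ) ≤ r ^ (7 / 8 : ℝ) * dist x x' :=
    mul_nonneg (Real.rpow_nonneg (by linarith) _) dist_nonneg
  have hind : ∀ s, |(∫ y in BB, (G s y - h y) * ff E r x y) - ∫ y in BB, (G s y - h y) * ff E r x' y|
      ≤ ε * (1 - (1 / 2) ^ s) * (r ^ (7 / 8 : ℝ) * dist x x') := by
    intro s
    induction s with
    | zero =>
      have hz : ∀ z, ∫ y in BB, (G 0 y - h y) * ff E r z y = 0 := by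
        intro z
        have : (fun y => (G 0 y - h y) * ff E r z y) = fun _ => (0 : ℝ) := by
          funext y
          have : G 0 y = h y := rfl
          rw [this, sub_self, zero_mul]
        rw [this]
        simp
      rw [hz, hz]
      simp
    | succ s ih =>
      rw [hstep s x, hstep s x']
      have h3 := hst s r hr x x'
      have e : (∫ y in BB, (G s y - h y) * ff E r x y) + (∫ y, (G (s + 1) y - G s y) * ff E r x y)
          - ((∫ y in BB, (G s y - h y) * ff E r x' y) + ∫ y, (G (s + 1) y - G s y) * ff E r x' y)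
          = ((∫ y in BB, (G s y - h y) * ff E r x y) - ∫ y in BB, (G s y - h y) * ff E r x' y)
            + ((∫ y, (G (s + 1) y - G s y) * ff E r x y)
              - ∫ y, (G (s + 1) y - G s y) * ff E r x' y) := by ring
      rw [e]
      refine (abs_add_le _ _).trans ?_
      have h4 : (ε * (1 / 2) ^ (s + 1)) * r ^ (7 / 8 : ℝ) * dist x x'
          = (ε * (1 / 2) ^ (s + 1)) * (r ^ (7 / 8 : ℝ) * dist x x') := by ring
      rw [h4] at h3
      have h5 : ε * (1 - (1 / 2 : ℝ) ^ (s + 1)) = ε * (1 - (1 / 2) ^ s) + ε * (1 / 2) ^ (s + 1) := by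
        rw [pow_succ]; ring
      rw [h5, add_mul]
      exact add_le_add ih h3
  have hind2 : ∀ s, |(∫ y in BB, (G s y - h y) * ff E r x y) - ∫ y in BB, (G s y - h y) * ff E r x' y|
      ≤ ε * r ^ (7 / 8 : ℝ) * dist x x' := by
    intro s
    refine (hind s).trans ?_
    have h6 : ε * (1 - (1 / 2 : ℝ) ^ s) ≤ ε := by
      have : (0 : ℝ) < (1 / 2) ^ s := by positivity
      nlinarith
    calc ε * (1 - (1 / 2 : ℝ) ^ s) * (r ^ (7 / 8 : ℝ) * dist x x')
        ≤ ε * (r ^ (7 / 8 : ℝ) * dist x x') := mul_le_mul_of_nonneg_right h6 hR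
      _ = ε * r ^ (7 / 8 : ℝ) * dist x x' := by ring
  -- passage to the limit
  have hTend : ∀ z, Tendsto (fun s => ∫ y in BB, (G s y - h y) * ff E r z y) atTop
      (𝓝 (∫ y in BB, (T.indicator (fun _ => (1 : ℝ)) y - h y) * ff E r z y)) := by
    intro z
    refine tendsto_integral_of_dominated_convergence (fun _ => (1 : ℝ))
      (fun s => (hI s z).aestronglyMeasurable) ?_ ?_ ?_
    · exact t10_int (M := 1) measurable_const (fun y => by simp)
    · intro s
      refine Eventually.of_forall fun y => ?_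
      rw [Real.norm_eq_abs, abs_mul]
      have a1 := h0 s y; have a2 := h1 s y
      have a3 : 0 ≤ h y := h0 0 y
      have a4 : h y ≤ 1 := h1 0 y
      have b1 : |G s y - h y| ≤ 1 := by rw [abs_le]; constructor <;> linarith
      have b2 : |ff E r z y| ≤ 1 := by
        rw [abs_of_nonneg (t10_ff_nonneg E r z y)]; exact t10_ff_le_one E r z y
      calc |G s y - h y| * |ff E r z y| ≤ 1 * 1 := mul_le_mul b1 b2 (abs_nonneg _) zero_le_one
        _ = 1 := one_mul 1
    · filter_upwards [hlim] with y hy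
      exact (hy.sub tendsto_const_nhds).mul_const _
  exact le_of_tendsto' ((hTend x).sub (hTend x')).abs hind2

end Pool.Agent.Helper37.RT
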